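import Pool.Agent.TH872.An3
import Pool.Agent.TH872.Mir6

/-!
# Level of distribution `1 - ε` for almost all residues with rearranged digits

Definitions used (in `Pool.Agent.TH872.An`): `Spread b k η d`: the integers `d i` (`i < k`) are digits in
base `b`, and no digit is taken at more than `(1 - η) k` of the `k` places `i`; `V b d σ`: the integer with the
permuted digits, thus the integer with the digit `d (σ i)` at the place `i`, in base `b`.

From Mathlib: `ArithmeticFunction.vonMangoldt`: the function `Λ`; `Nat.totient`: Euler's function.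
-/

set_option autoImplicit false

namespace Pool.Agent.Results.MP_00e23e_nt.DigitPermutations

open Finset Pool.Agent.TH872.An

/-- `ψ(x; q, a)`: the sum of `Λ(n)` over the `n ≤ x` with `n ≡ a (mod q)`. -/
noncomputable def psi (x q a : ℕ) : ℝ :=
  ∑ n ∈ (Icc 1 x).filter (fun n => n ≡ a [MOD q]), ArithmeticFunction.vonMangoldt n

/-- The sum of `λ(q) (ψ(x; q, a) - x / φ(q))` over the `q ≤ Q` coprime to `a`. -/
noncomputable def weighted (lam : ℕ → ℝ) (Q x a : ℕ) : ℝ :=
  ∑ q ∈ (Icc 1 Q).filter (fun q => a.Coprime q), lam q * (psi x q a - (x : ℝ) / Nat.totient q)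

/-- The primes have the level of distribution `1 - ε` in the residue classes of `a`, with the weights `λ(q)`
and up to `B N`: the sum of `λ(q) (ψ(x; q, a) - x / φ(q))` over the `q ≤ N ^ (1 - ε)` coprime to `a` has
absolute value at most `N / log ^ U N` for all `x ≤ B N`. Here `N = b ^ k`, and `log ^ U N` is replaced by
`k ^ U`, which is of the same order of magnitude. -/
def Level (b B U k : ℕ) (ε : ℝ) (lam : ℕ → ℝ) (a : ℕ) : Prop :=
  ∀ x ≤ B * b ^ k, |weighted lam ⌊((b ^ k : ℕ) : ℝ) ^ (1 - ε)⌋₊ x a| ≤ ((b ^ k : ℕ) : ℝ) / (k : ℝ) ^ U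

/-- Let `b ≥ 2`, `B`, `T`, `U`, `κ ≠ 0`, `η > 0` and `ε > 0` be fixed, let `k` be large and `N = b ^ k`, let `d`
be an arbitrary sequence of `k` digits in base `b` none of which is taken at more than `(1 - η) k` places, let
`c` be an arbitrary integer with `|c| ≤ B N`, and let `λ(q)` be arbitrary coefficients with `|λ(q)| ≤ k ^ T`.

Then for all the permutations `σ` of the `k` places, up to at most `k! / k ^ U` of them, the integer
`a = c + κ v`, where `v` has the permuted digits, has the following property: if `a` is positive, then the sum of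
`λ(q) (ψ(x; q, a) - x / φ(q))` over the `q ≤ N ^ (1 - ε)` coprime to `a` has absolute value at most `N / k ^ U`
for all `x ≤ B N`. -/
theorem result (b B T U : ℕ) (hb : 2 ≤ b) (κ : ℤ) (hκ : κ ≠ 0) (η ε : ℝ) (hη : 0 < η) (hε : 0 < ε) :
    ∃ k₀ : ℕ, ∀ k : ℕ, k₀ ≤ k → ∀ d : Fin k → ℕ, Spread b k η d → ∀ c : ℤ, |c| ≤ B * (b : ℤ) ^ k →
      ∀ lam : ℕ → ℝ, (∀ q, |lam q| ≤ (k : ℝ) ^ T) →
      (Nat.card {σ : Equiv.Perm (Fin k) // 0 < c + κ * V b d σ ∧
        ¬ Level b B U k ε lam (c + κ * V b d σ).toNat} : ℝ) ≤ Nat.factorial k / (k : ℝ) ^ U := by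
  classical
  obtain ⟨e, he⟩ : ∃ e, e = B + κ.natAbs := ⟨_, rfl⟩
  obtain ⟨V', hV⟩ := Pool.Agent.TH872.Mir.lv_law b (FA b κ) hb (FA_pos b hb κ hκ) ε hε T (U + 1)
  obtain ⟨D, K1, hD⟩ := an_law b hb η hη κ (e + 1) V'
  obtain ⟨K₀, hK₀⟩ := hV D
  refine ⟨K₀ + K1 + b ^ (e + 1) + 1, fun k hk' d hd c hc lam hlam => ?_⟩
  have hpe : 0 < b ^ (e + 1) := by positivity
  obtain ⟨K, hK⟩ : ∃ K, K = k + (e + 1) := ⟨_, rfl⟩
  have hKk : K = k + e + 1 := by omega
  have hK1 : K - 1 = k + e := by omega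
  have hkr : (1 : ℝ) ≤ k := by exact_mod_cast (by omega : 1 ≤ k)
  have hkK : (k : ℝ) ≤ K := by exact_mod_cast (by omega : k ≤ K)
  have hKbig : (b : ℝ) ^ (e + 1) ≤ K := by exact_mod_cast (by omega : b ^ (e + 1) ≤ K)
  have hb1 : (1 : ℝ) ≤ b := by exact_mod_cast (by omega : 1 ≤ b)
  have hbk : (1 : ℝ) ≤ ((b ^ k : ℕ) : ℝ) := by exact_mod_cast Nat.one_le_pow _ _ (by omega)
  have hbkK : ((b ^ k : ℕ) : ℝ) ≤ ((b ^ K : ℕ) : ℝ) := by
    exact_mod_cast Nat.pow_le_pow_right (by omega) (by omega)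
  have h := hK₀ K (by omega) _ univ (fun _ => 1 / (k.factorial : ℝ)) (fun σ => c + κ * (V b d σ : ℕ))
    (hD k K hK (by omega) d hd c) (by
      intro σ _
      have h1 := size b B hb κ k _ (V_lt hd (by omega) σ) c hc
      rw [← he, abs_lt] at h1
      have h2 : ((b ^ (k + e) : ℕ) : ℤ) < ((b ^ K : ℕ) : ℤ) := by
        exact_mod_cast Nat.pow_lt_pow_right (by omega) (by omega)
      rw [hK1]
      exact ⟨by linarith [h1.1], h1.2.le⟩)
    lam (fun q => (hlam q).trans (pow_le_pow_left₀ (by linarith) hkK T)) ⌊((b ^ k : ℕ) : ℝ) ^ (1 - ε)⌋₊ (by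
      by_cases h1 : ε ≤ 1
      · refine (Nat.floor_le (by positivity)).trans ?_
        exact Real.rpow_le_rpow (by positivity) hbkK (by linarith)
      · push Not at h1
        rcases Nat.eq_zero_or_pos ⌊((b ^ k : ℕ) : ℝ) ^ (1 - ε)⌋₊ with h2 | h2
        · rw [h2]
          push_cast
          positivity
        · exfalso
          have h3 : (1 : ℝ) ≤ ((b ^ k : ℕ) : ℝ) ^ (1 - ε) := by
            have := Nat.floor_le (a := ((b ^ k : ℕ) : ℝ) ^ (1 - ε)) (by positivity)
            have h4 : (1 : ℝ) ≤ (⌊((b ^ k : ℕ) : ℝ) ^ (1 - ε)⌋₊ : ℝ) := by exact_mod_cast h2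
            linarith
          have h5 : (1 : ℝ) < ((b ^ k : ℕ) : ℝ) := by
            exact_mod_cast Nat.one_lt_pow (by omega) (by omega)
          have h6 := Real.rpow_lt_one_of_one_lt_of_neg h5 (by linarith : 1 - ε < 0)
          linarith)
    (fun σ => 0 < c + κ * V b d σ ∧ ¬ Level b B U k ε lam (c + κ * V b d σ).toNat) (by
      rintro σ - ⟨ha, hL⟩
      refine ⟨ha, ?_⟩
      unfold Level at hL
      push Not at hL
      obtain ⟨x, hx, hlt⟩ := hL
      refine ⟨x, ?_, ?_⟩
      · refine hx.trans ?_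
        rw [hK1, pow_add, mul_comm]
        apply Nat.mul_le_mul_left
        calc B ≤ e := by omega
          _ ≤ b ^ e := (Nat.lt_pow_self (by omega)).le
      · refine lt_of_le_of_lt ?_ hlt
        rw [div_le_div_iff₀ (pow_pos (by linarith) _) (pow_pos (by linarith) _), hKk]
        push_cast
        rw [show k + e + 1 = k + (e + 1) by ring, pow_add (b : ℝ) k (e + 1), pow_succ _ U]
        have e1 : (k : ℝ) ^ U ≤ (k + e + 1) ^ U := pow_le_pow_left₀ (by positivity) (by linarith [(Nat.cast_nonneg e : (0 : ℝ) ≤ e)]) U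
        have e2 : (b : ℝ) ^ (e + 1) ≤ (k + e + 1) := by
          refine hKbig.trans (le_of_eq ?_)
          rw [hKk]
          push_cast
          ring
        calc (b : ℝ) ^ k * (b : ℝ) ^ (e + 1) * (k : ℝ) ^ U = (b : ℝ) ^ k * ((k : ℝ) ^ U * (b : ℝ) ^ (e + 1)) := by ring
          _ ≤ (b : ℝ) ^ k * ((k + e + 1) ^ U * (k + e + 1)) := by
              apply mul_le_mul_of_nonneg_left _ (by positivity)
              exact mul_le_mul e1 e2 (by positivity) (by positivity))
  rw [Nat.card_eq_fintype_card, Fintype.card_subtype]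
  refine (count_perm k _ _ h).trans ?_
  rw [mul_one_div]
  apply div_le_div_of_nonneg_left (Nat.cast_nonneg _) (pow_pos (by linarith) U)
  calc (k : ℝ) ^ U ≤ (K : ℝ) ^ U := pow_le_pow_left₀ (by positivity) hkK U
    _ ≤ (K : ℝ) ^ (U + 1) := pow_le_pow_right₀ (by linarith) (by omega)

end Pool.Agent.Results.MP_00e23e_nt.DigitPermutations
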