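import Pool.Agent.TH646.LV.Level
import Pool.Agent.TH823.Fam.Fam2

/-!
# Level of distribution `N exp (-K (log log N) ^ 2)` for almost all residues from arbitrary thin families

The exponential sum bounds for the primes, the bilinear inequality for families of nearly minimal additive
energy, the moments of Weyl sums and the sieve estimates are from the starting files (`Pool.Agent.H373R2`,
`Pool.Agent.H807R2.Dav`, `Pool.Agent.W93`) and from `Pool.Agent.TH935.LF`, `Pool.Agent.TH823.Fam`.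
From Mathlib: `ArithmeticFunction.vonMangoldt`: the function `Λ`; `Nat.totient`: Euler's function;
`Polynomial ℤ`: the polynomials with integer coefficients; `f.eval m`: the value at `m`.
-/

set_option autoImplicit false

namespace Pool.Agent.Results.MP_00e23e_nt.FamiliesOfResidues

open Finset

/-- The additive energy of order `p` of the family `s 1, ..., s x`: the number of the solutions of
`s (v 1) + ... + s (v p) = s (w 1) + ... + s (w p)` with all `v i`, `w i` in `{1, ..., x}`. -/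
def energy (p x : ℕ) (s : ℕ → ℤ) : ℕ :=
  (((Fintype.piFinset fun _ : Fin p => Icc 1 x) ×ˢ (Fintype.piFinset fun _ : Fin p => Icc 1 x)).filter
    (fun q => ∑ i, s (q.1 i) = ∑ i, s (q.2 i))).card

open Classical in
/-- The number of the `m` in `{1, ..., x}` with the property `E`. -/
noncomputable def num (x : ℕ) (E : ℕ → Prop) : ℝ := (((Icc 1 x).filter E).card : ℝ)

/-- `ψ(y; q, a)`: the sum of `Λ(n)` over the `n ≤ y` with `n ≡ a (mod q)`. -/
noncomputable def psi (y q a : ℕ) : ℝ :=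
  ∑ n ∈ (Icc 1 y).filter (fun n => n ≡ a [MOD q]), ArithmeticFunction.vonMangoldt n

/-- The sum of `λ(q) (ψ(y; q, a) - y / φ(q))` over the `q ≤ Q` coprime to `a`. -/
noncomputable def weighted (lam : ℕ → ℝ) (Q y a : ℕ) : ℝ :=
  ∑ q ∈ (Icc 1 Q).filter (fun q => a.Coprime q), lam q * (psi y q a - (y : ℝ) / Nat.totient q)

/-- The level `N exp (-K (log log N) ^ 2)`, rounded down. -/
noncomputable def level (K N : ℕ) : ℕ := ⌊(N : ℝ) * Real.exp (-(K * Real.log (Real.log N) ^ 2))⌋₊

lemma num_mono {x : ℕ} {E F : ℕ → Prop} (h : ∀ m ∈ Icc 1 x, E m → F m) : num x E ≤ num x F := by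
  classical
  unfold num
  apply Nat.cast_le.2
  apply card_le_card
  intro m hm
  rw [mem_filter] at hm ⊢
  exact ⟨hm.1, h m hm.1 hm.2⟩

lemma num_union {x L : ℕ} (E : Fin L → ℕ → Prop) (F : ℕ → Prop) (hF : ∀ m, F m → ∃ l, E l m) :
    num x F ≤ ∑ l, num x (E l) := by
  classical
  unfold num
  rw [← Nat.cast_sum]
  apply Nat.cast_le.2
  refine le_trans (card_le_card (t := (univ : Finset (Fin L)).biUnion fun l =>
    @filter ℕ (E l) (Classical.decPred _) (Icc 1 x)) ?_) card_biUnion_le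
  intro m hm
  rw [mem_filter] at hm
  obtain ⟨l, h2⟩ := hF m hm.2
  rw [mem_biUnion]
  refine ⟨l, mem_univ _, ?_⟩
  rw [mem_filter]
  exact ⟨hm.1, h2⟩

lemma general (p B C T U : ℕ) : ∃ K N₀ : ℕ, ∀ N : ℕ, N₀ ≤ N →
    ∀ (x : ℕ) (s : ℕ → ℤ), (∀ m ∈ Icc 1 x, |s m| ≤ B * N) →
    (energy p x s : ℝ) * N ≤ Real.log N ^ C * (x : ℝ) ^ (2 * p) →
    ∀ L : ℕ, (L : ℝ) ≤ Real.log N ^ T → ∀ lam : Fin L → ℕ → ℝ, (∀ l q, |lam l q| ≤ Real.log N ^ T) →
      num x (fun m => 0 < s m ∧ ¬ ∀ l, ∀ y ≤ B * N,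
        |weighted (lam l) (level K N) y (s m).toNat| ≤ N / Real.log N ^ U) ≤ x / Real.log N ^ U := by
  classical
  obtain ⟨K, N₀, h0⟩ := Pool.Agent.TH646.LV.lv_fam p B C T (T + U)
  refine ⟨K, N₀ + 3, fun N hN x s hs hE L hL lam hlam => ?_⟩
  have hlog1 : 1 ≤ Real.log N := by
    rw [Real.le_log_iff_exp_le (by exact_mod_cast (by omega : 0 < N))]
    have : (3 : ℝ) ≤ N := by exact_mod_cast (by omega : 3 ≤ N)
    linarith [Real.exp_one_lt_d9]
  have hlog0 : 0 < Real.log N := by linarith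
  have h1 : ∀ l : Fin L, num x (fun m => 0 < s m ∧ ∃ y ≤ B * N,
      N / Real.log N ^ U < |weighted (lam l) (level K N) y (s m).toNat|) ≤ x / Real.log N ^ (T + U) := by
    intro l
    have h2 := h0 N (by omega) x s hs hE (lam l) (hlam l) (level K N) (Nat.floor_le (by positivity))
      ((Icc 1 x).filter (fun m => 0 < s m ∧ ∃ y ≤ B * N,
        N / Real.log N ^ U < |weighted (lam l) (level K N) y (s m).toNat|)) (filter_subset _ _) (by
        intro m hm
        obtain ⟨_, h3, y, hy, h4⟩ := mem_filter.1 hm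
        refine ⟨h3, y, hy, lt_of_le_of_lt ?_ h4⟩
        apply div_le_div_of_nonneg_left (Nat.cast_nonneg _) (by positivity)
        exact pow_le_pow_right₀ hlog1 (by omega))
    refine le_trans (le_of_eq ?_) h2
    unfold num
    congr!
  calc num x (fun m => 0 < s m ∧ ¬ ∀ l, ∀ y ≤ B * N,
        |weighted (lam l) (level K N) y (s m).toNat| ≤ N / Real.log N ^ U)
      ≤ ∑ l, num x (fun m => 0 < s m ∧ ∃ y ≤ B * N,
        N / Real.log N ^ U < |weighted (lam l) (level K N) y (s m).toNat|) := by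
        apply num_union
        rintro m ⟨h2, h3⟩
        push Not at h3
        obtain ⟨l, y, hy, h4⟩ := h3
        exact ⟨l, h2, y, hy, h4⟩
    _ ≤ ∑ _l : Fin L, (x : ℝ) / Real.log N ^ (T + U) := sum_le_sum fun l _ => h1 l
    _ = L * (x / Real.log N ^ (T + U)) := by
        rw [sum_const, card_univ, Fintype.card_fin, nsmul_eq_mul]
    _ ≤ Real.log N ^ T * (x / Real.log N ^ (T + U)) := mul_le_mul_of_nonneg_right hL (by positivity)
    _ = x / Real.log N ^ U := by
        rw [pow_add]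
        field_simp

/-- Let `B`, `C`, `T`, `U` be fixed. Let the systems of coefficients `λ_l(q)`, where `l` ranges over at most
`log ^ T N` indices, be arbitrary with `|λ_l(q)| ≤ log ^ T N`.

* For every `p` there is a `K` such that for all large `N` the following holds. Let `s 1, ..., s x` be an
  arbitrary family of integers in `[-B N, B N]` with an additive energy of order `p` of at most `log ^ C N`
  times the minimal possible size `x ^ (2 p) / N`. Then, for all the `m ≤ x` with at most `x / log ^ U N`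
  exceptions: if `a = s m` is positive, then the sum of `λ_l(q) (ψ(y; q, a) - y / φ(q))` over the
  `q ≤ N exp (-K (log log N) ^ 2)` coprime to `a` has absolute value at most `N / log ^ U N`, for all `l` and
  all `y ≤ B N`.
* In particular this holds for the residues `a = c + f m`, `m ≤ x`, where `f` is a fixed nonconstant
  polynomial with integer coefficients, of degree `d`, `N / log ^ C N ≤ x ^ d ≤ B N` and `|c| ≤ B N`. -/
theorem result (B C T U : ℕ) :
    (∀ p : ℕ, ∃ K N₀ : ℕ, ∀ N : ℕ, N₀ ≤ N → ∀ (x : ℕ) (s : ℕ → ℤ), (∀ m ∈ Icc 1 x, |s m| ≤ B * N) →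
      (energy p x s : ℝ) * N ≤ Real.log N ^ C * (x : ℝ) ^ (2 * p) →
      ∀ L : ℕ, (L : ℝ) ≤ Real.log N ^ T → ∀ lam : Fin L → ℕ → ℝ, (∀ l q, |lam l q| ≤ Real.log N ^ T) →
        num x (fun m => 0 < s m ∧ ¬ ∀ l, ∀ y ≤ B * N,
          |weighted (lam l) (level K N) y (s m).toNat| ≤ N / Real.log N ^ U) ≤ x / Real.log N ^ U) ∧
    (∀ f : Polynomial ℤ, 1 ≤ f.natDegree → ∃ K N₀ : ℕ, ∀ N : ℕ, N₀ ≤ N → ∀ x : ℕ,
      x ^ f.natDegree ≤ B * N → (N : ℝ) ≤ Real.log N ^ C * (x : ℝ) ^ f.natDegree → ∀ c : ℤ, |c| ≤ B * N →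
      ∀ L : ℕ, (L : ℝ) ≤ Real.log N ^ T → ∀ lam : Fin L → ℕ → ℝ, (∀ l q, |lam l q| ≤ Real.log N ^ T) →
        num x (fun m => 0 < c + f.eval (m : ℤ) ∧ ¬ ∀ l, ∀ y ≤ B * N,
          |weighted (lam l) (level K N) y (c + f.eval (m : ℤ)).toNat| ≤ N / Real.log N ^ U) ≤
          x / Real.log N ^ U) := by
  classical
  refine ⟨fun p => general p B C T U, fun f hd => ?_⟩
  obtain ⟨p, B', hB', N1, h1⟩ := Pool.Agent.TH823.Fam.poly_family f hd B C
  obtain ⟨K, N2, h2⟩ := general p B' (C + 1) T U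
  refine ⟨K, N1 + N2, fun N hN x hx1 hx2 c hc L hL lam hlam => ?_⟩
  obtain ⟨h3, h4⟩ := h1 N (by omega) x hx1 hx2 c hc
  refine le_trans ?_ (h2 N (by omega) x (fun m => c + f.eval (m : ℤ)) h3 h4 L hL lam hlam)
  apply num_mono
  rintro m _ ⟨h5, h6⟩
  exact ⟨h5, fun hcon => h6 fun l y hy => hcon l y (hy.trans (Nat.mul_le_mul_right _ hB'))⟩

end Pool.Agent.Results.MP_00e23e_nt.FamiliesOfResidues
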