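import Pool.Agent.TH894.LG10

/-!
# Level of distribution `1 - ε` for almost all residues which arise from an arbitrary integer by
`C log log x` changes of digits

From Mathlib: `ArithmeticFunction.vonMangoldt`: the function `Λ`; `Nat.totient`: Euler's function.
-/

set_option autoImplicit false

namespace Pool.Agent.Results.MP_00e23e_nt.FewDigitChanges

open Finset

/-- `ψ(x; q, a)`: the sum of `Λ(n)` over the `n ≤ x` with `n ≡ a (mod q)`. -/
noncomputable def psi (x q a : ℕ) : ℝ :=
  ∑ n ∈ (Icc 1 x).filter (fun n => n ≡ a [MOD q]), ArithmeticFunction.vonMangoldt n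

/-- The sum of `λ(q) (ψ(x; q, a) - x / φ(q))` over the `q ≤ Q` coprime to `a`. -/
noncomputable def weighted (lam : ℕ → ℝ) (Q x a : ℕ) : ℝ :=
  ∑ q ∈ (Icc 1 Q).filter (fun q => a.Coprime q), lam q * (psi x q a - (x : ℝ) / Nat.totient q)

/-- The digit number `i` (counted from the right, beginning with `0`) of `n` in base `b`. -/
def digit (b i n : ℕ) : ℕ := n / b ^ i % b

/-- The number which arises from the number `N` with at most `K` digits in base `b`, if for every `i ∈ S`
the digit number `i` is replaced by `f i`. -/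
def change (b K N : ℕ) (f : ℕ → ℕ) (S : Finset ℕ) : ℕ :=
  ∑ i ∈ range K, (if i ∈ S then f i else digit b i N) * b ^ i

/-- The positions `1, ..., K - 1` of a number with at most `K` digits are divided into three windows: the
first and the last `h` positions and the rest. -/
def window (h K : ℕ) (q : Fin 3) : Finset ℕ :=
  if q = 0 then Ico 1 (1 + h) else if q = 1 then Ico (1 + h) (K - h) else Ico (K - h) K

/-- The choices of `s 0`, `s 1`, `s 2` positions in the three windows. -/
def choices (h K : ℕ) (s : Fin 3 → ℕ) : Finset (Fin 3 → Finset ℕ) :=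
  Fintype.piFinset (fun q => powersetCard (s q) (window h K q))

open Classical in
/-- The number of the choices for which the number obtained by changing the digits of `N` at the chosen
positions (according to `f`) does not have the property `E`. -/
noncomputable def exceptions (b h K N : ℕ) (f : ℕ → ℕ) (s : Fin 3 → ℕ) (E : ℕ → Prop) : ℕ :=
  ((choices h K s).filter (fun S => ¬ E (change b K N f (S 0 ∪ S 1 ∪ S 2)))).card

lemma change_SM (b K N : ℕ) (f : ℕ → ℕ) (T : Finset ℕ) : change b K N f T = Pool.Agent.TH894.SM.change b K N f T := rfl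

/-- For every base `b ≥ 2` there is an `R ≥ 1` with the following property. Let `T`, `U` and `ε > 0` be given. Then there
are `C ≥ 1` and `A` such that for every sufficiently large `K` and every integer `0 ≤ N < b ^ K` the following holds.

Let `m = ⌊log_b (K + 1)⌋ + 1` and `h = A m`, and divide the positions `1, ..., K - 1` of the digits into three windows: the
first `h` and the last `h` of them, and the rest. Prescribe for every position `j` a digit `f j` different from the
digit of `N`. Let `s 0`, `s 1`, `s 2` be integers between `C m` and `1 / R` times the length of the respective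
window (by the first assertion one can take `s q = C m`, so that only `3 C m` of the digits of `N` are changed). Let
`λ(q)` be arbitrary real coefficients with `|λ(q)| ≤ K ^ T`.

If one chooses `s 0`, `s 1`, `s 2` positions in the three windows and replaces the digits of `N` at these positions, then for
all but at most a proportion `1 / K ^ U` of the choices the number `a` obtained is `0`, or the sum of
`λ(q) (ψ(x; q, a) - x / φ(q))` over the `q ≤ (b ^ K) ^ (1 - ε)` coprime to `a` has absolute value at most `b ^ K / K ^ U`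
for all `x ≤ b ^ K`. -/
theorem result (b : ℕ) (hb : 2 ≤ b) : ∃ R : ℕ, 1 ≤ R ∧ ∀ T U : ℕ, ∀ ε : ℝ, 0 < ε → ∃ C A K₀ : ℕ, 1 ≤ C ∧
    ∀ K : ℕ, K₀ ≤ K → (∀ q, R * (C * (Nat.log b (K + 1) + 1)) ≤ (window (A * (Nat.log b (K + 1) + 1)) K q).card) ∧
    ∀ N : ℕ, N < b ^ K → ∀ f : ℕ → ℕ, (∀ j, f j < b ∧ f j ≠ digit b j N) →
    ∀ s : Fin 3 → ℕ, (∀ q, C * (Nat.log b (K + 1) + 1) ≤ s q ∧ R * s q ≤ (window (A * (Nat.log b (K + 1) + 1)) K q).card) →
    ∀ lam : ℕ → ℝ, (∀ q, |lam q| ≤ (K : ℝ) ^ T) →
      (exceptions b (A * (Nat.log b (K + 1) + 1)) K N f s (fun a => 0 < a → ∀ x : ℕ, x ≤ b ^ K →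
          |weighted lam ⌊((b ^ K : ℕ) : ℝ) ^ (1 - ε)⌋₊ x a| ≤ ((b ^ K : ℕ) : ℝ) / (K : ℝ) ^ U) : ℝ) ≤
        1 / (K : ℝ) ^ U * (choices (A * (Nat.log b (K + 1) + 1)) K s).card := by
  classical
  obtain ⟨R, hR, H⟩ := Pool.Agent.TH894.LG.lv_K b hb
  refine ⟨8 * R, by omega, fun T U ε hε => ?_⟩
  obtain ⟨C, hC, H1⟩ := H T U ε hε
  obtain ⟨A, hA, k₀, h0⟩ := H1 (8 * R * C)
  obtain ⟨k2, h2⟩ := Pool.Agent.W93.DG.hh_small b A 4 hb
  refine ⟨C, 2 * A, k₀ + k2 + 8, hC, fun K hK => ?_⟩
  have hwin : ∀ q, window (2 * A * (Nat.log b (K + 1) + 1)) K q =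
      Pool.Agent.TH894.SM.Win (Pool.Agent.W93.DG.hh b A (K + 1)) (K + 1) q := by
    intro q
    unfold window Pool.Agent.TH894.SM.Win Pool.Agent.W93.DG.hh
    rw [Nat.add_sub_cancel]
  have hsm := h2 (K + 1) (by omega)
  have hlow : 8 * R * (C * (Nat.log b (K + 1) + 1)) ≤ Pool.Agent.W93.DG.hh b A (K + 1) := by
    unfold Pool.Agent.W93.DG.hh
    calc 8 * R * (C * (Nat.log b (K + 1) + 1)) = (8 * R * C) * (Nat.log b (K + 1) + 1) := by ring
      _ ≤ (2 * A) * (Nat.log b (K + 1) + 1) := Nat.mul_le_mul_right _ (by omega)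
  refine ⟨fun q => ?_, fun N hN f hf s hs lam hlam => ?_⟩
  · rw [hwin]
    refine hlow.trans ?_
    unfold Pool.Agent.TH894.SM.Win
    split_ifs
    · rw [Nat.card_Ico]; omega
    · rw [Nat.card_Ico]; omega
    · rw [Nat.card_Ico]; omega
  have hun : ∀ S : Fin 3 → Finset ℕ, Pool.Agent.TH894.SM.un S = S 0 ∪ S 1 ∪ S 2 := by
    intro S
    unfold Pool.Agent.TH894.SM.un
    ext x
    simp only [mem_biUnion, mem_univ, true_and, mem_union]
    constructor
    · rintro ⟨q, hq⟩
      have hq3 : q = 0 ∨ q = 1 ∨ q = 2 := by fin_cases q <;> simp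
      rcases hq3 with rfl | rfl | rfl
      · exact Or.inl (Or.inl hq)
      · exact Or.inl (Or.inr hq)
      · exact Or.inr hq
    · rintro ((h | h) | h)
      · exact ⟨0, h⟩
      · exact ⟨1, h⟩
      · exact ⟨2, h⟩
  have hch : choices (2 * A * (Nat.log b (K + 1) + 1)) K s = Pool.Agent.TH894.LG.Ch b A K s := by
    unfold choices Pool.Agent.TH894.LG.Ch
    simp only [hwin]
  have key : ∀ E : ℕ → Prop, (∀ a, ¬ E a → 0 < a ∧ ∃ x ≤ b ^ K, ((b ^ K : ℕ) : ℝ) / (K : ℝ) ^ U <
        |weighted lam ⌊((b ^ K : ℕ) : ℝ) ^ (1 - ε)⌋₊ x a|) →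
      (exceptions b (2 * A * (Nat.log b (K + 1) + 1)) K N f s E : ℝ) ≤
        1 / (K : ℝ) ^ U * (choices (2 * A * (Nat.log b (K + 1) + 1)) K s).card := by
    intro E hE
    unfold exceptions
    rw [hch]
    refine h0 K (by omega) N hN f hf s (fun q => (hs q).1) (fun q => by rw [← hwin]; exact (hs q).2) lam hlam
      ⌊((b ^ K : ℕ) : ℝ) ^ (1 - ε)⌋₊ (Nat.floor_le (by positivity)) _ (filter_subset _ _) ?_
    intro S hS
    rw [mem_filter] at hS
    obtain ⟨_, hS2⟩ := hS
    rw [← hun S, change_SM] at hS2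
    exact hE _ hS2
  apply key
  intro a ha
  push Not at ha
  exact ha

end Pool.Agent.Results.MP_00e23e_nt.FewDigitChanges
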