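import Pool.Agent.TH872.Transfer
import Pool.Agent.TH872.Mir6

/-!
# Level of distribution `1 - ε` for almost all residues which are palindromes

Definitions used (all in `Pool.Agent.TH872.Tr`): `num b k E`: the number of the palindromes with exactly `k`
digits in base `b` which have the property `E`; `value b k κ c d z`: the integer `c + κ v`, where `v` has the
pair of digits `d i` at the positions `i` and `k - 1 - i`, for `i < k / 2`, and, if `k` is odd, the middle
digit `z`; `Prob b k w u E`: the probability of the event `E` if the pairs `d i` and `z` are chosen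
independently of each other with the distributions `w i` and `u`; `Pairs b k η w`: the `w i` are
distributions of pairs of digits, and two independent copies of the pair number `i` (`i ≥ 1`) differ in
both digits with a probability of at least `η`.

From Mathlib: `ArithmeticFunction.vonMangoldt`: the function `Λ`; `Nat.totient`: Euler's function.
-/

set_option autoImplicit false

namespace Pool.Agent.Results.MP_00e23e_nt.PalindromicResidues

open Finset Pool.Agent.TH872.Tr

/-- `ψ(x; q, a)`: the sum of `Λ(n)` over the `n ≤ x` with `n ≡ a (mod q)`. -/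
noncomputable def psi (x q a : ℕ) : ℝ :=
  ∑ n ∈ (Icc 1 x).filter (fun n => n ≡ a [MOD q]), ArithmeticFunction.vonMangoldt n

/-- The sum of `λ(q) (ψ(x; q, a) - x / φ(q))` over the `q ≤ Q` coprime to `a`. -/
noncomputable def weighted (lam : ℕ → ℝ) (Q x a : ℕ) : ℝ :=
  ∑ q ∈ (Icc 1 Q).filter (fun q => a.Coprime q), lam q * (psi x q a - (x : ℝ) / Nat.totient q)

/-- The primes have the level of distribution `1 - ε` in the residue classes of `a`, with the weights `λ(q)`
and up to `B N`: the sum of `λ(q) (ψ(x; q, a) - x / φ(q))` over the `q ≤ N ^ (1 - ε)` coprime to `a` has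
absolute value at most `N / log ^ U N` for all `x ≤ B N`. Here `N = b ^ k`, and `log ^ U N` is replaced by
`k ^ U`, which is of the same order of magnitude. -/
def Level (b B U k : ℕ) (ε : ℝ) (lam : ℕ → ℝ) (a : ℕ) : Prop :=
  ∀ x ≤ B * b ^ k, |weighted lam ⌊((b ^ k : ℕ) : ℝ) ^ (1 - ε)⌋₊ x a| ≤ ((b ^ k : ℕ) : ℝ) / (k : ℝ) ^ U

/-- Let `b ≥ 2`, `B`, `T`, `U`, `κ ≠ 0`, `η > 0` and `ε > 0` be fixed, let `k` be large and `N = b ^ k`, let `c`
be an arbitrary integer with `|c| ≤ B N`, and let `λ(q)` be arbitrary coefficients with `|λ(q)| ≤ k ^ T`.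

(1) Let `v` be a random integer with `k` digits in base `b`, such that the pairs formed by the digits at
the positions `i` and `k - 1 - i` are independent of each other for different `i`. Inside of a pair the
digits may depend on each other in an arbitrary way; the distributions of the pairs are arbitrary (and
depend on the position and on `k`), only two independent copies of a pair (with `i ≥ 1`) should differ in
both digits with a probability of at least `η`. Then, with a probability of at least `1 - 1 / k ^ U`, the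
integer `a = c + κ v` has the following property: if `a` is positive, then the sum of
`λ(q) (ψ(x; q, a) - x / φ(q))` over the `q ≤ N ^ (1 - ε)` coprime to `a` has absolute value at most `N / k ^ U`
for all `x ≤ B N`.

(2) In particular all the palindromes `v` with `k` digits in base `b`, up to a proportion of at most
`1 / k ^ U` of them, have the property. -/
theorem result (b B T U : ℕ) (hb : 2 ≤ b) (κ : ℤ) (hκ : κ ≠ 0) (η ε : ℝ) (hη : 0 < η) (hε : 0 < ε) :
    ∃ k₀ : ℕ, ∀ k : ℕ, k₀ ≤ k → ∀ c : ℤ, |c| ≤ B * (b : ℤ) ^ k → ∀ lam : ℕ → ℝ, (∀ q, |lam q| ≤ (k : ℝ) ^ T) →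
      (∀ (w : ℕ → ℕ × ℕ → ℝ) (u : ℕ → ℝ), Pairs b k η w → (∀ a, 0 ≤ u a) → ∑ a ∈ range b, u a = 1 →
        Prob b k w u (fun d z => 0 < value b k κ c d z ∧
          ¬ Level b B U k ε lam (value b k κ c d z).toNat) ≤ 1 / (k : ℝ) ^ U) ∧
      (num b k (fun v => 0 < c + κ * v ∧ ¬ Level b B U k ε lam (c + κ * v).toNat) : ℝ) ≤
        num b k (fun _ => True) / (k : ℝ) ^ U := by
  classical
  have H : Rare b B U κ (fun k bad => ∃ lam : ℕ → ℝ, (∀ q, |lam q| ≤ (k : ℝ) ^ T) ∧
      ∀ a : ℤ, bad a → 0 < a ∧ ¬ Level b B U k ε lam a.toNat) := by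
    intro η hη s hs
    obtain ⟨e, he⟩ : ∃ e, e = B + 3 * κ.natAbs := ⟨_, rfl⟩
    obtain ⟨V, hV⟩ := Pool.Agent.TH872.Mir.lv_law b (Pool.Agent.TH872.Mir.FF0 b κ) hb (Pool.Agent.TH872.Mir.FF0_pos b κ hκ) ε hε T (U + 1)
    obtain ⟨D, hD⟩ := Pool.Agent.TH872.Mir.mir_law b hb η hη κ (e + 1) s V
    obtain ⟨K₀, hK₀⟩ := hV D
    refine ⟨K₀ + b ^ (e + 1) + 1, fun m hm w hw cc hcc bad hbad E _ hE => ?_⟩
    obtain ⟨lam, hlam, hbad⟩ := hbad
    have hpe : 0 < b ^ (e + 1) := by positivity
    obtain ⟨k, hk⟩ : ∃ k, k = 2 * m + s := ⟨_, rfl⟩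
    obtain ⟨K, hK⟩ : ∃ K, K = 2 * m + s + (e + 1) := ⟨_, rfl⟩
    have hKk : K = k + e + 1 := by omega
    have hK1 : K - 1 = 2 * m + s + e := by omega
    have hkr : (1 : ℝ) ≤ k := by exact_mod_cast (by omega : 1 ≤ k)
    have hkK : (k : ℝ) ≤ K := by exact_mod_cast (by omega : k ≤ K)
    have hKbig : (b : ℝ) ^ (e + 1) ≤ K := by exact_mod_cast (by omega : b ^ (e + 1) ≤ K)
    have hb1 : (1 : ℝ) ≤ b := by exact_mod_cast (by omega : 1 ≤ b)
    have hbk : (1 : ℝ) ≤ ((b ^ k : ℕ) : ℝ) := by exact_mod_cast Nat.one_le_pow _ _ (by omega)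
    have hbkK : ((b ^ k : ℕ) : ℝ) ≤ ((b ^ K : ℕ) : ℝ) := by
      exact_mod_cast Nat.pow_le_pow_right (by omega) (by omega)
    rw [← he] at hcc
    rw [← hk] at hlam hbad ⊢
    have h := hK₀ K (by omega) _ (Pool.Agent.TH872.Mir.Gs b m) (Pool.Agent.TH872.Mir.pw w)
      (fun g => cc + κ * (Pool.Agent.TH872.Mir.val b (2 * m + s) g : ℕ)) (hD m K hK (by omega) w hw cc) (by
        intro g hg
        have h0 : ((Pool.Agent.TH872.Mir.val b (2 * m + s) g : ℕ) : ℤ) ≤ 2 * (b : ℤ) ^ (2 * m + s) := by
          exact_mod_cast (Pool.Agent.TH872.Mir.val_lt b m s (by omega) g hg).le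
        have h1 : |cc + κ * (Pool.Agent.TH872.Mir.val b (2 * m + s) g : ℕ)| ≤ (b : ℤ) ^ (2 * m + s + e) := by
          calc |cc + κ * (Pool.Agent.TH872.Mir.val b (2 * m + s) g : ℕ)| ≤
                |cc| + |κ * (Pool.Agent.TH872.Mir.val b (2 * m + s) g : ℕ)| := abs_add_le _ _
            _ = |cc| + |κ| * (Pool.Agent.TH872.Mir.val b (2 * m + s) g : ℕ) := by
                rw [abs_mul, abs_of_nonneg (by positivity : (0 : ℤ) ≤ ((Pool.Agent.TH872.Mir.val b (2 * m + s) g : ℕ) : ℤ))]
            _ ≤ |cc| + |κ| * (2 * (b : ℤ) ^ (2 * m + s)) := by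
                have := mul_le_mul_of_nonneg_left h0 (abs_nonneg κ)
                linarith
            _ ≤ _ := hcc
        rw [abs_le] at h1
        have h2 : (b : ℤ) ^ (2 * m + s + e) < ((b ^ K : ℕ) : ℤ) := by
          push_cast
          exact pow_lt_pow_right₀ (by exact_mod_cast (by omega : 1 < b)) (by omega)
        rw [hK1]
        push_cast
        push_cast at h2
        exact ⟨by linarith [h1.1], h1.2⟩)
      lam (fun q => (hlam q).trans (pow_le_pow_left₀ (by linarith) hkK T)) ⌊((b ^ k : ℕ) : ℝ) ^ (1 - ε)⌋₊ (by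
        by_cases h1 : ε ≤ 1
        · refine (Nat.floor_le (by positivity)).trans ?_
          exact Real.rpow_le_rpow (by positivity) hbkK (by linarith)
        · push Not at h1
          rcases Nat.eq_zero_or_pos ⌊((b ^ k : ℕ) : ℝ) ^ (1 - ε)⌋₊ with h2 | h2
          · rw [h2]
            push_cast
            positivity
          · exfalso
            have h3 : (1 : ℝ) ≤ ((b ^ k : ℕ) : ℝ) ^ (1 - ε) := by
              have := Nat.floor_le (a := ((b ^ k : ℕ) : ℝ) ^ (1 - ε)) (by positivity)
              have h4 : (1 : ℝ) ≤ (⌊((b ^ k : ℕ) : ℝ) ^ (1 - ε)⌋₊ : ℝ) := by exact_mod_cast h2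
              linarith
            have h5 : (1 : ℝ) < ((b ^ k : ℕ) : ℝ) := by
              exact_mod_cast Nat.one_lt_pow (by omega) (by omega)
            have h6 := Real.rpow_lt_one_of_one_lt_of_neg h5 (by linarith : 1 - ε < 0)
            linarith) E (by
        intro g hg hEg
        obtain ⟨ha, hL⟩ := hbad _ (hE g hg hEg)
        refine ⟨ha, ?_⟩
        unfold Level at hL
        push Not at hL
        obtain ⟨x, hx, hlt⟩ := hL
        refine ⟨x, ?_, ?_⟩
        · refine hx.trans ?_
          rw [hK1, ← hk, pow_add, mul_comm]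
          apply Nat.mul_le_mul_left
          calc B ≤ e := by omega
            _ ≤ b ^ e := (Nat.lt_pow_self (by omega)).le
        · refine lt_of_le_of_lt ?_ hlt
          rw [div_le_div_iff₀ (pow_pos (by linarith) _) (pow_pos (by linarith) _), hKk]
          push_cast
          rw [show k + e + 1 = k + (e + 1) by ring, pow_add (b : ℝ) k (e + 1), pow_succ _ U]
          have e1 : (k : ℝ) ^ U ≤ (k + e + 1) ^ U := pow_le_pow_left₀ (by positivity) (by linarith [(Nat.cast_nonneg e : (0 : ℝ) ≤ e)]) U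
          have e2 : (b : ℝ) ^ (e + 1) ≤ (k + e + 1) := by
            refine hKbig.trans (le_of_eq ?_)
            rw [hKk]
            push_cast
            ring
          calc (b : ℝ) ^ k * (b : ℝ) ^ (e + 1) * (k : ℝ) ^ U = (b : ℝ) ^ k * ((k : ℝ) ^ U * (b : ℝ) ^ (e + 1)) := by ring
            _ ≤ (b : ℝ) ^ k * ((k + e + 1) ^ U * (k + e + 1)) := by
                apply mul_le_mul_of_nonneg_left _ (by positivity)
                exact mul_le_mul e1 e2 (by positivity) (by positivity))
    refine h.trans ?_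
    apply one_div_le_one_div_of_le (pow_pos (by linarith) U)
    calc (k : ℝ) ^ U ≤ (K : ℝ) ^ U := pow_le_pow_left₀ (by positivity) hkK U
      _ ≤ (K : ℝ) ^ (U + 1) := pow_le_pow_right₀ (by linarith) (by omega)
  obtain ⟨k₀, h⟩ := transfer b B U hb κ _ H η hη
  refine ⟨k₀, fun k hk c hc lam hlam => ?_⟩
  exact h k hk c hc (fun a => 0 < a ∧ ¬ Level b B U k ε lam a.toNat) ⟨lam, hlam, fun a ha => ha⟩

end Pool.Agent.Results.MP_00e23e_nt.PalindromicResidues
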